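import Mathlib

namespace Pool.Agent.Results.MP_75529e_al.Counter

/-- `K` is an ideal of the ring `I` (a subset of `J` with the restricted operations). -/
def IsIdealOf {J : Type} [NonUnitalNonAssocCommRing J] (I K : AddSubgroup J) : Prop :=
  K ≤ I ∧ ∀ r ∈ I, ∀ a ∈ K, r * a ∈ K

/-- The ring `I` has no nonzero ideal with zero square. -/
def IsSemiprime {J : Type} [NonUnitalNonAssocCommRing J] (I : AddSubgroup J) : Prop :=
  ∀ K : AddSubgroup J, IsIdealOf I K → (∀ a ∈ K, ∀ b ∈ K, a * b = 0) → K = ⊥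

abbrev F := ZMod 2

@[ext] structure J where
  u : Fin 3 → F
  v : Fin 3 → F
  c : F

instance : DecidableEq J := fun x y =>
  decidable_of_iff (x.u = y.u ∧ x.v = y.v ∧ x.c = y.c) J.ext_iff.symm

def cr (a b : Fin 3 → F) : Fin 3 → F :=
  fun i => a (i + 1) * b (i + 2) + a (i + 2) * b (i + 1)

def eqv : J ≃ (Fin 3 → F) × (Fin 3 → F) × F :=
  ⟨fun x => (x.u, x.v, x.c), fun p => ⟨p.1, p.2.1, p.2.2⟩, fun _ => rfl, fun _ => rfl⟩

instance : AddCommGroup J := eqv.addCommGroup

instance : Mul J := ⟨fun x y => ⟨cr x.u y.u + x.c • y.v + y.c • x.v, cr x.u y.v + cr x.v y.u, 0⟩⟩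

@[simp] lemma add_u (x y : J) : (x + y).u = x.u + y.u := rfl
@[simp] lemma add_v (x y : J) : (x + y).v = x.v + y.v := rfl
@[simp] lemma add_c (x y : J) : (x + y).c = x.c + y.c := rfl
@[simp] lemma zero_u : (0 : J).u = 0 := rfl
@[simp] lemma zero_v : (0 : J).v = 0 := rfl
@[simp] lemma zero_c : (0 : J).c = 0 := rfl
@[simp] lemma mul_u (x y : J) : (x * y).u = cr x.u y.u + x.c • y.v + y.c • x.v := rfl
@[simp] lemma mul_v (x y : J) : (x * y).v = cr x.u y.v + cr x.v y.u := rfl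
@[simp] lemma mul_c (x y : J) : (x * y).c = 0 := rfl

lemma mul_comm' (x y : J) : x * y = y * x := by
  ext i
  · fin_cases i <;> simp [cr] <;> ring
  · fin_cases i <;> simp [cr] <;> ring
  · simp

lemma left_distrib' (x y z : J) : x * (y + z) = x * y + x * z := by
  ext i
  · fin_cases i <;> simp [cr] <;> ring
  · fin_cases i <;> simp [cr] <;> ring
  · simp

lemma mul_zero' (x : J) : x * 0 = 0 := by
  ext i
  · fin_cases i <;> simp [cr]
  · fin_cases i <;> simp [cr]
  · simp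

instance : NonUnitalNonAssocCommRing J where
  left_distrib := left_distrib'
  right_distrib x y z := by rw [mul_comm', left_distrib', mul_comm' z, mul_comm' z]
  zero_mul x := by rw [mul_comm', mul_zero']
  mul_zero := mul_zero'
  mul_comm := mul_comm'

lemma two (a : F) : a + a = 0 := CharTwo.add_self_eq_zero a

lemma sq (x : J) : x * x = 0 := by
  have h2 : (2 : F) = 0 := rfl
  ext i
  · fin_cases i <;> simp [cr] <;> ring_nf <;> simp [h2]
  · fin_cases i <;> simp [cr] <;> ring_nf <;> simp [h2]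
  · simp

lemma jac (x y z : J) : (x * y) * z + (y * z) * x + (z * x) * y = 0 := by
  have h2 : (2 : F) = 0 := rfl
  ext i
  · fin_cases i <;> simp [cr] <;> ring_nf <;> simp [h2]
  · fin_cases i <;> simp [cr] <;> ring_nf <;> simp [h2]
  · simp

lemma add_self (x : J) : x + x = 0 := by
  ext i <;> simp [two]

def I : AddSubgroup J where
  carrier := {x | x.c = 0}
  zero_mem' := rfl
  add_mem' := by
    intro a b ha hb
    simp only [Set.mem_ofPred_eq] at *
    simp [ha, hb]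
  neg_mem' := by
    intro a ha
    rw [neg_eq_of_add_eq_zero_left (add_self a)]; exact ha

def K : AddSubgroup J where
  carrier := {x | x.u = 0 ∧ x.c = 0}
  zero_mem' := ⟨rfl, rfl⟩
  add_mem' := by
    intro a b ha hb
    simp only [Set.mem_ofPred_eq] at *
    simp [ha, hb]
  neg_mem' := by
    intro a ha
    rw [neg_eq_of_add_eq_zero_left (add_self a)]; exact ha

def bs : List J := [⟨![1, 0, 0], 0, 0⟩, ⟨![0, 1, 0], 0, 0⟩, ⟨![0, 0, 1], 0, 0⟩,
  ⟨0, ![1, 0, 0], 0⟩, ⟨0, ![0, 1, 0], 0⟩, ⟨0, ![0, 0, 1], 0⟩, ⟨0, 0, 1⟩]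

lemma key : ∀ u v : Fin 3 → F, ∀ c : F, (⟨u, v, c⟩ : J) ≠ 0 →
    ∃ a ∈ bs, ∃ b ∈ bs, (a * ⟨u, v, c⟩) * (b * (a * ⟨u, v, c⟩)) ≠ 0 ∨
      (a * ⟨u, v, c⟩) * (b * ⟨u, v, c⟩) ≠ 0 := by
  decide +kernel

theorem result : ∃ (J : Type) (_ : NonUnitalNonAssocCommRing J),
    (∀ x y : J, ((x * x) * y) * x = (x * x) * (y * x)) ∧
    (∀ x y z w : J, ((x * y) * w) * z + ((y * z) * w) * x + ((z * x) * w) * y =
      (x * y) * (w * z) + (y * z) * (w * x) + (z * x) * (w * y)) ∧
    IsSemiprime (⊤ : AddSubgroup J) ∧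
    ∃ I : AddSubgroup J, IsIdealOf ⊤ I ∧ ¬ IsSemiprime I := by
  refine ⟨J, inferInstance, fun x y => by simp [sq], ?_, ?_, I, ⟨le_top, fun _ _ _ _ => rfl⟩, ?_⟩
  · intro x y z w
    have h : ∀ u w z : J, (u * w) * z = u * (w * z) + (u * z) * w := by
      intro u w z
      have := jac u w z
      rw [mul_comm (w * z), mul_comm z u, add_assoc] at this
      rw [eq_neg_of_add_eq_zero_left this, neg_eq_of_add_eq_zero_left (add_self _)]
    rw [h (x * y) w, h (y * z) w, h (z * x) w]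
    have := congrArg (· * w) (jac x y z)
    simp only [add_mul, zero_mul] at this
    calc _ = (x * y * (w * z) + y * z * (w * x) + z * x * (w * y)) +
          (x * y * z * w + y * z * x * w + z * x * y * w) := by abel
      _ = _ := by rw [this, add_zero]
  · intro K hK h0
    rw [eq_bot_iff]
    rintro ⟨u, v, c⟩ hx
    by_contra hne
    obtain ⟨a, -, b, -, h | h⟩ := key u v c hne
    · exact h (h0 _ (hK.2 _ trivial _ hx) _ (hK.2 _ trivial _ (hK.2 _ trivial _ hx)))
    · exact h (h0 _ (hK.2 _ trivial _ hx) _ (hK.2 _ trivial _ hx))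
  · intro h
    have := h K ⟨fun x hx => hx.2, ?_⟩ ?_
    · have h1 : (⟨0, ![1, 0, 0], 0⟩ : J) ∈ K := ⟨rfl, rfl⟩
      rw [this, AddSubgroup.mem_bot] at h1
      revert h1; decide
    · rintro r hr a ⟨h1, h2⟩
      have hr' : r.c = 0 := hr
      refine ⟨?_, rfl⟩
      funext i
      fin_cases i <;> simp [cr, h1, h2, hr']
    · rintro a ⟨h1, h2⟩ b ⟨h3, h4⟩
      ext i
      · fin_cases i <;> simp [cr, h1, h2, h3, h4]
      · fin_cases i <;> simp [cr, h1, h3]
      · simp

end Pool.Agent.Results.MP_75529e_al.Counter
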